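import Pool.Agent.H9.BI.Final

open MeasureTheory Set Metric
open scoped ENNReal NNReal Topology

namespace Pool.Agent.Results.MP_84d657_an.NoLightSegments

open Pool.Agent.H9.BI

/-- For every bounded open set `Ω ⊆ ℝ^m`, `m ≥ 2`, every strictly spacelike boundary datum `φ` and
every source `ρ` in `L^1(Ω)` and in `L^q_loc(Ω)` for some `q ≥ m - 1` (in particular for the
borderline exponent `q = m - 1`), the minimiser of the Born-Infeld action has no light segment. -/
theorem result : ∀ (m : ℕ), 2 ≤ m → ∀ (Ω : Set (Eu m)), IsOpen Ω → Bornology.IsBounded Ω →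
    ∀ (φ ρ u : Eu m → ℝ), SpacelikeData Ω φ → IntegrableOn ρ Ω →
    ∀ (q : ℝ≥0∞), ((m - 1 : ℕ) : ℝ≥0∞) ≤ q →
    (∀ K : Set (Eu m), K ⊆ Ω → IsCompact K → MemLp ρ q (volume.restrict K)) →
    IsMinimizer Ω φ ρ u → ¬ HasLightSegment Ω u := by
  intro m hm Ω hΩ hb φ ρ u hφ hρ q hq hloc hmin
  refine no_light_segment hm hΩ hb hφ hρ (fun K hK hKc => ?_) hmin
  haveI : IsFiniteMeasure (volume.restrict K) := ⟨by
    rw [Measure.restrict_apply_univ]; exact hKc.measure_lt_top⟩
  exact (hloc K hK hKc).mono_exponent hq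

end Pool.Agent.Results.MP_84d657_an.NoLightSegments
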